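import Pool.Agent.Helper69.Riesz.StereoB
import Pool.Agent.Helper27.Riesz.Haar

/-! Measure of balls on the sphere (module STEREO). -/

set_option autoImplicit false
open MeasureTheory Set Filter Topology
open scoped ENNReal NNReal

namespace Helper23.Riesz

theorem dist_rot {d : ℕ} (g : E d ≃ₗᵢ[ℝ] E d) (x y : S d) : dist (rot g x) (rot g y) = dist x y := by
  rw [Subtype.dist_eq, Subtype.dist_eq]
  exact g.dist_map _ _

theorem lam_zero {d : ℕ} : lam (0 : R d) = 2 := by
  simp [lam]

theorem closedBall_south {d : ℕ} {r : ℝ} (hr1 : r < 1) :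
    Metric.closedBall (Th (0 : R d)) r ⊆ Th '' (Metric.closedBall (0 : R d) r) := by
  intro p hp
  have hr0 : 0 ≤ r := dist_nonneg.trans (Metric.mem_closedBall.1 hp)
  have hpn : p ≠ north d := by
    rintro rfl
    have h1 : dist (north d) (Th (0 : R d)) = 2 := by
      rw [Subtype.dist_eq, dist_eq_norm]
      have h2 : ‖(north d : E d) - ThE (0 : R d)‖ ^ 2 = 4 := by
        rw [norm_sq_E]
        have e1 : ∀ k : Fin d, ((north d : E d) - ThE (0 : R d)) k.castSucc = 0 := by
          intro k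
          have : ((north d : E d) - ThE (0 : R d)) k.castSucc =
            (north d : E d) k.castSucc - ThE (0 : R d) k.castSucc := rfl
          rw [this, ThE_castSucc]
          simp [north, (Fin.castSucc_lt_last k).ne]
        have e2 : ((north d : E d) - ThE (0 : R d)) (Fin.last d) = 2 := by
          have : ((north d : E d) - ThE (0 : R d)) (Fin.last d) =
            (north d : E d) (Fin.last d) - ThE (0 : R d) (Fin.last d) := rfl
          rw [this, ThE_last, north_last, lam_zero]
          ring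
        rw [e2, Finset.sum_eq_zero fun k _ => by rw [e1 k]; simp]
        norm_num
      have h3 := norm_nonneg ((north d : E d) - ThE (0 : R d))
      have h4 : ‖(north d : E d) - ThE (0 : R d)‖ = 2 := by nlinarith
      exact h4
    have h5 := Metric.mem_closedBall.1 hp
    rw [h1] at h5
    linarith
  have hr : p ∈ Set.range (Th : R d → S d) := by
    rw [range_Th]; exact hpn
  obtain ⟨y, rfl⟩ := hr
  refine ⟨y, ?_, rfl⟩
  rw [mem_closedBall_zero_iff]
  have h1 := Metric.mem_closedBall.1 hp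
  have h2 := dist_Th_sq y (0 : R d)
  rw [lam_zero, dist_zero_right] at h2
  have h3 : dist (Th y) (Th (0 : R d)) ^ 2 ≤ r ^ 2 := by
    exact pow_le_pow_left₀ dist_nonneg h1 2
  rw [h2] at h3
  have h4 := lam_mul y
  have h5 := lam_pos y
  have h6 : lam y * ‖y‖ ^ 2 = 2 - lam y := by linarith
  have h7 : ‖y‖ ^ 2 * (4 - r ^ 2) ≤ r ^ 2 := by
    have h8 : lam y * ‖y‖ ^ 2 * 2 * (1 + ‖y‖ ^ 2) ≤ r ^ 2 * (1 + ‖y‖ ^ 2) := by
      have : 0 ≤ 1 + ‖y‖ ^ 2 := by positivity
      nlinarith
    have h9 : lam y * ‖y‖ ^ 2 * 2 * (1 + ‖y‖ ^ 2) = 4 * ‖y‖ ^ 2 := by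
      calc lam y * ‖y‖ ^ 2 * 2 * (1 + ‖y‖ ^ 2) = (lam y * (1 + ‖y‖ ^ 2)) * (2 * ‖y‖ ^ 2) := by ring
        _ = 4 * ‖y‖ ^ 2 := by rw [h4]; ring
    nlinarith
  have h10 : ‖y‖ ^ 2 ≤ r ^ 2 := by
    have h11 : r ^ 2 ≤ 1 := by nlinarith
    nlinarith [sq_nonneg ‖y‖]
  exact (sq_le_sq₀ (norm_nonneg _) hr0).1 h10

theorem sig_Th_le {d : ℕ} (hd : 1 ≤ d) (A : Set (R d)) (hA : MeasurableSet A) :
    sig d (Th '' A) ≤ ENNReal.ofReal (2 ^ d / omega d) * volume A := by
  rw [sig_Th hd A hA]
  have h1 : ∫⁻ y in A, ENNReal.ofReal (lam y ^ d) ≤ ∫⁻ _ in A, ENNReal.ofReal (2 ^ d) := by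
    refine lintegral_mono fun y => ENNReal.ofReal_le_ofReal ?_
    exact pow_le_pow_left₀ (lam_pos y).le (lam_le_two y) d
  rw [setLIntegral_const] at h1
  calc ENNReal.ofReal (1 / omega d) * ∫⁻ y in A, ENNReal.ofReal (lam y ^ d)
      ≤ ENNReal.ofReal (1 / omega d) * (ENNReal.ofReal (2 ^ d) * volume A) := by gcongr
    _ = ENNReal.ofReal (2 ^ d / omega d) * volume A := by
        rw [← mul_assoc, ← ENNReal.ofReal_mul (by have := omega_pos hd; positivity)]
        congr 2
        ring

theorem sig_closedBall_le {d : ℕ} (hd : 1 ≤ d) :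
    ∃ C : ℝ, 0 < C ∧ ∀ (x : S d) (r : ℝ), 0 ≤ r → (sig d).real (Metric.closedBall x r) ≤ C * r ^ d := by
  have := isProbabilityMeasure_sig d
  have hω := omega_pos hd
  have hne : Nonempty (Fin d) := ⟨⟨0, hd⟩⟩
  have hnt : Nontrivial (R d) := inferInstance
  set v : ℝ := (volume : Measure (R d)).real (Metric.closedBall 0 1) with hv
  have hv0 : 0 ≤ v := measureReal_nonneg
  refine ⟨2 ^ d / omega d * v + 1, by positivity, fun x r hr => ?_⟩
  rcases le_or_gt 1 r with h1 | h1
  · have h2 : (1 : ℝ) ≤ r ^ d := one_le_pow₀ h1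
    calc (sig d).real (Metric.closedBall x r) ≤ 1 := measureReal_le_one
      _ ≤ (2 ^ d / omega d * v + 1) * r ^ d := by
        have : (0 : ℝ) ≤ 2 ^ d / omega d * v := by positivity
        nlinarith
  · obtain ⟨g, hg⟩ := exists_rot (Th (0 : R d)) x
    have h2 : rot g ⁻¹' (Metric.closedBall x r) = Metric.closedBall (Th (0 : R d)) r := by
      ext y
      rw [mem_preimage, Metric.mem_closedBall, Metric.mem_closedBall, ← hg, dist_rot]
    have h3 : sig d (Metric.closedBall x r) = sig d (Metric.closedBall (Th (0 : R d)) r) := by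
      rw [← h2]
      exact ((rot_mp g).measure_preimage Metric.isClosed_closedBall.measurableSet.nullMeasurableSet).symm
    have h4 : (volume : Measure (R d)) (Metric.closedBall 0 r) = ENNReal.ofReal (r ^ d * v) := by
      rw [Measure.addHaar_closedBall _ _ hr, finrank_euclideanSpace_fin,
        ENNReal.ofReal_mul (by positivity), hv, ← Measure.addHaar_closedBall_eq_addHaar_ball,
        ofReal_measureReal (by exact measure_closedBall_lt_top.ne)]
    have h5 : sig d (Metric.closedBall x r) ≤ ENNReal.ofReal (2 ^ d / omega d * (r ^ d * v)) := by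
      rw [h3]
      calc sig d (Metric.closedBall (Th (0 : R d)) r)
          ≤ sig d (Th '' (Metric.closedBall (0 : R d) r)) := measure_mono (closedBall_south h1)
        _ ≤ ENNReal.ofReal (2 ^ d / omega d) * volume (Metric.closedBall (0 : R d) r) :=
            sig_Th_le hd _ Metric.isClosed_closedBall.measurableSet
        _ = ENNReal.ofReal (2 ^ d / omega d * (r ^ d * v)) := by
            rw [h4, ← ENNReal.ofReal_mul (by positivity)]
    have h6 : (sig d).real (Metric.closedBall x r) ≤ 2 ^ d / omega d * (r ^ d * v) :=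
      ENNReal.toReal_le_of_le_ofReal (by positivity) h5
    refine h6.trans ?_
    have : (0 : ℝ) ≤ r ^ d := by positivity
    nlinarith

end Helper23.Riesz
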