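import Pool.Agent.Helper23.Riesz.Defs

/-! Stereographic coordinates on the sphere (module STEREO-a). -/

set_option autoImplicit false
open MeasureTheory Set Filter Topology
open scoped ENNReal NNReal

namespace Helper23.Riesz

/-- flat space -/
abbrev R (d : ℕ) : Type := EuclideanSpace ℝ (Fin d)

/-- conformal factor of stereographic coordinates -/
noncomputable def lam {d : ℕ} (y : R d) : ℝ := 2 / (1 + ‖y‖ ^ 2)

/-- inverse stereographic projection as a vector of `ℝ^{d+1}`: `(λ y, 1 - λ)` -/
noncomputable def ThE {d : ℕ} (y : R d) : E d :=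
  (WithLp.toLp 2 (Fin.snoc (α := fun _ => ℝ) (fun k => lam y * y k) (1 - lam y)) : E d)

theorem lam_pos {d : ℕ} (y : R d) : 0 < lam y := by
  unfold lam; positivity

theorem lam_mul {d : ℕ} (y : R d) : lam y * (1 + ‖y‖ ^ 2) = 2 := by
  unfold lam
  have : (1 + ‖y‖ ^ 2) ≠ 0 := by positivity
  field_simp

theorem lam_le_two {d : ℕ} (y : R d) : lam y ≤ 2 := by
  have h1 := lam_mul y
  have h2 := lam_pos y
  nlinarith [sq_nonneg ‖y‖]

theorem ThE_castSucc {d : ℕ} (y : R d) (k : Fin d) : ThE y k.castSucc = lam y * y k := by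
  simp [ThE]

theorem ThE_last {d : ℕ} (y : R d) : ThE y (Fin.last d) = 1 - lam y := by
  simp [ThE]

theorem norm_sq_R {d : ℕ} (y : R d) : ‖y‖ ^ 2 = ∑ k, y k ^ 2 := by
  rw [EuclideanSpace.norm_sq_eq]
  simp

theorem norm_sq_E {d : ℕ} (y : E d) :
    ‖y‖ ^ 2 = ∑ k : Fin d, y k.castSucc ^ 2 + y (Fin.last d) ^ 2 := by
  rw [EuclideanSpace.norm_sq_eq, Fin.sum_univ_castSucc]
  simp

theorem ThE_norm_sq {d : ℕ} (y : R d) : ‖ThE y‖ ^ 2 = 1 := by
  rw [norm_sq_E]
  simp only [ThE_castSucc, ThE_last, mul_pow]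
  rw [← Finset.mul_sum, ← norm_sq_R]
  have := lam_mul y
  nlinarith

theorem ThE_norm {d : ℕ} (y : R d) : ‖ThE y‖ = 1 := by
  have h := ThE_norm_sq y
  have h0 := norm_nonneg (ThE y)
  nlinarith

/-- inverse stereographic projection `ℝ^d → S^d` -/
noncomputable def Th {d : ℕ} (y : R d) : S d := ⟨ThE y, by simp [ThE_norm]⟩

theorem ThE_sub_norm_sq {d : ℕ} (x y : R d) :
    ‖ThE x - ThE y‖ ^ 2 = lam x * lam y * ‖x - y‖ ^ 2 := by
  rw [norm_sq_E, norm_sq_R (x - y)]
  have e1 : ∀ k : Fin d, (ThE x - ThE y) k.castSucc = lam x * x k - lam y * y k := by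
    intro k
    rw [PiLp.sub_apply, ThE_castSucc, ThE_castSucc]
  have e2 : (ThE x - ThE y) (Fin.last d) = lam y - lam x := by
    rw [PiLp.sub_apply, ThE_last, ThE_last]; ring
  have e3 : ∀ k : Fin d, (x - y) k = x k - y k := fun _ => rfl
  simp only [e1, e2, e3]
  have hx := lam_mul x
  have hy := lam_mul y
  rw [norm_sq_R] at hx hy
  have s1 : ∑ k : Fin d, (lam x * x k - lam y * y k) ^ 2 =
      lam x ^ 2 * ∑ k, x k ^ 2 + lam y ^ 2 * ∑ k, y k ^ 2 -
        2 * (lam x * lam y) * ∑ k, x k * y k := by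
    rw [Finset.mul_sum, Finset.mul_sum, Finset.mul_sum, ← Finset.sum_add_distrib,
      ← Finset.sum_sub_distrib]
    exact Finset.sum_congr rfl fun k _ => by ring
  have s2 : ∑ k : Fin d, (x k - y k) ^ 2 =
      ∑ k, x k ^ 2 + ∑ k, y k ^ 2 - 2 * ∑ k, x k * y k := by
    rw [Finset.mul_sum, ← Finset.sum_add_distrib, ← Finset.sum_sub_distrib]
    exact Finset.sum_congr rfl fun k _ => by ring
  rw [s1, s2]
  set P := ∑ k, x k ^ 2
  set Q := ∑ k, y k ^ 2
  set T := ∑ k, x k * y k
  have a1 : lam x ^ 2 * P = 2 * lam x - lam x ^ 2 := by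
    have : lam x * (lam x * (1 + P)) = lam x * 2 := by rw [hx]
    linarith
  have a2 : lam y ^ 2 * Q = 2 * lam y - lam y ^ 2 := by
    have : lam y * (lam y * (1 + Q)) = lam y * 2 := by rw [hy]
    linarith
  have a3 : lam x * lam y * P = 2 * lam y - lam x * lam y := by
    have : lam y * (lam x * (1 + P)) = lam y * 2 := by rw [hx]
    linarith
  have a4 : lam x * lam y * Q = 2 * lam x - lam x * lam y := by
    have : lam x * (lam y * (1 + Q)) = lam x * 2 := by rw [hy]
    linarith
  rw [a1, a2]
  have : lam x * lam y * (P + Q - 2 * T) = lam x * lam y * P + lam x * lam y * Q -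
    2 * (lam x * lam y) * T := by ring
  rw [this, a3, a4]
  ring

theorem dist_Th_sq {d : ℕ} (x y : R d) :
    (dist (Th x) (Th y)) ^ 2 = lam x * lam y * (dist x y) ^ 2 := by
  rw [Subtype.dist_eq, dist_eq_norm, dist_eq_norm]
  exact ThE_sub_norm_sq x y

theorem continuous_lam {d : ℕ} : Continuous (lam : R d → ℝ) := by
  unfold lam
  refine continuous_const.div (by fun_prop) fun y => ?_
  positivity

theorem continuous_ThE {d : ℕ} : Continuous (ThE : R d → E d) := by
  unfold ThE
  refine (PiLp.continuous_toLp 2 _).comp (continuous_pi fun k => ?_)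
  refine Fin.lastCases ?_ (fun k => ?_) k
  · simp only [Fin.snoc_last]
    exact continuous_const.sub continuous_lam
  · simp only [Fin.snoc_castSucc]
    exact continuous_lam.mul (by fun_prop)

theorem continuous_Th {d : ℕ} : Continuous (Th : R d → S d) :=
  continuous_ThE.subtype_mk _

theorem injective_Th {d : ℕ} : Function.Injective (Th : R d → S d) := by
  intro x y h
  have h1 := dist_Th_sq x y
  rw [h, dist_self] at h1
  have h2 := mul_pos (lam_pos x) (lam_pos y)
  have h3 : dist x y ^ 2 = 0 := by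
    rcases mul_eq_zero.1 (show lam x * lam y * dist x y ^ 2 = 0 by rw [← h1]; ring) with h | h
    · exact absurd h h2.ne'
    · exact h
  exact dist_eq_zero.1 (pow_eq_zero_iff (by norm_num) |>.1 h3)

theorem measurableEmbedding_Th {d : ℕ} : MeasurableEmbedding (Th : R d → S d) :=
  continuous_Th.measurableEmbedding injective_Th

/-- the missing point -/
noncomputable def north (d : ℕ) : S d :=
  ⟨EuclideanSpace.single (Fin.last d) (1:ℝ), by simp⟩

theorem north_last (d : ℕ) : (north d : E d) (Fin.last d) = 1 := by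
  simp [north]

theorem range_Th {d : ℕ} : Set.range (Th : R d → S d) = {north d}ᶜ := by
  ext p
  simp only [mem_range, mem_compl_iff, mem_singleton_iff]
  constructor
  · rintro ⟨y, rfl⟩ h
    have h1 : (Th y : E d) (Fin.last d) = 1 := by rw [h]; exact north_last d
    have h2 : (Th y : E d) (Fin.last d) = 1 - lam y := ThE_last y
    have := lam_pos y
    linarith
  · intro hp
    have hn : ‖(p : E d)‖ ^ 2 = 1 := by
      have : ‖(p : E d)‖ = 1 := by simp
      rw [this]; norm_num
    rw [norm_sq_E] at hn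
    set t : ℝ := (p : E d) (Fin.last d) with ht
    have hsum : 0 ≤ ∑ k : Fin d, (p : E d) k.castSucc ^ 2 :=
      Finset.sum_nonneg fun k _ => sq_nonneg _
    have ht1 : t < 1 := by
      by_contra hcon
      have h1 : 1 ≤ t := not_lt.1 hcon
      have h2 : t = 1 := by nlinarith
      have h3 : ∑ k : Fin d, (p : E d) k.castSucc ^ 2 = 0 := by rw [h2] at hn; linarith
      apply hp
      apply Subtype.ext
      ext k
      refine Fin.lastCases ?_ (fun k => ?_) k
      · rw [north_last, ← ht, h2]
      · have h4 := (Finset.sum_eq_zero_iff_of_nonneg (fun k _ => sq_nonneg _)).1 h3 k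
          (Finset.mem_univ k)
        have h5 : (p : E d) k.castSucc = 0 := by simpa using h4
        rw [h5]
        simp only [north, PiLp.single_apply]
        rw [if_neg]
        exact (Fin.castSucc_lt_last k).ne
    have hpos : 0 < 1 - t := by linarith
    refine ⟨WithLp.toLp 2 fun k => (p : E d) k.castSucc / (1 - t), ?_⟩
    set y : R d := WithLp.toLp 2 fun k => (p : E d) k.castSucc / (1 - t) with hy
    have hyk : ∀ k, y k = (p : E d) k.castSucc / (1 - t) := fun k => rfl
    have hny : ‖y‖ ^ 2 = (1 + t) / (1 - t) := by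
      rw [norm_sq_R]
      simp only [hyk, div_pow]
      rw [← Finset.sum_div, show ∑ k : Fin d, (p : E d) k.castSucc ^ 2 = (1 - t) * (1 + t) by
        linarith]
      field_simp
    have hlam : lam y = 1 - t := by
      rw [lam, hny]
      field_simp
      ring
    apply Subtype.ext
    ext k
    refine Fin.lastCases ?_ (fun k => ?_) k
    · have : (Th y : E d) (Fin.last d) = 1 - lam y := ThE_last y
      rw [this, hlam]
      ring
    · have : (Th y : E d) k.castSucc = lam y * y k := ThE_castSucc y k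
      rw [this, hlam, hyk]
      field_simp

end Helper23.Riesz
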