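import Pool.Agent.Helper69.Riesz.StereoA

/-! Surface measure in stereographic coordinates (module STEREO-b). -/

set_option autoImplicit false
open MeasureTheory Set Filter Topology
open scoped ENNReal NNReal RealInnerProductSpace Pointwise

namespace Helper23.Riesz

theorem differentiable_lam {d : ℕ} : Differentiable ℝ (lam : R d → ℝ) := by
  intro y
  unfold lam
  have h1 : DifferentiableAt ℝ (fun y : R d => 1 + ‖y‖ ^ 2) y :=
    (differentiableAt_const _).add ((contDiff_norm_sq ℝ (n := 1)).differentiable (by norm_num) y)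
  have h2 : (1 + ‖y‖ ^ 2 : ℝ) ≠ 0 := by positivity
  have h3 : DifferentiableAt ℝ (fun y : R d => (1 + ‖y‖ ^ 2)⁻¹) y := h1.fun_inv h2
  have h4 := h3.const_mul (2 : ℝ)
  simpa [div_eq_mul_inv] using h4

theorem differentiable_ThE {d : ℕ} : Differentiable ℝ (ThE : R d → E d) := by
  intro y
  rw [differentiableAt_euclidean]
  intro k
  refine Fin.lastCases ?_ (fun k => ?_) k
  · have : (fun x : R d => ThE x (Fin.last d)) = fun x => 1 - lam x := by
      funext x; exact ThE_last x
    rw [this]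
    exact (differentiableAt_const _).sub (differentiable_lam y)
  · have : (fun x : R d => ThE x k.castSucc) = fun x => lam x * x k := by
      funext x; exact ThE_castSucc x k
    rw [this]
    refine (differentiable_lam y).mul ?_
    exact (differentiableAt_euclidean.1 differentiableAt_id) k

/-- the derivative of `ThE` is conformal with factor `lam` -/
theorem fderiv_ThE_norm_sq {d : ℕ} (y v : R d) :
    ‖fderiv ℝ ThE y v‖ ^ 2 = lam y ^ 2 * ‖v‖ ^ 2 := by
  have hd : HasDerivAt (fun h : ℝ => ThE (y + h • v)) (fderiv ℝ ThE y v) 0 := by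
    have h1 : HasFDerivAt ThE (fderiv ℝ ThE y) (y + (0 : ℝ) • v) := by
      simpa using (differentiable_ThE y).hasFDerivAt
    have h2 : HasDerivAt (fun h : ℝ => y + h • v) v 0 := by
      simpa using ((hasDerivAt_id (0 : ℝ)).smul_const v).const_add y
    exact h1.comp_hasDerivAt 0 h2
  rw [hasDerivAt_iff_tendsto_slope_zero] at hd
  have h3 : Tendsto (fun h : ℝ => ‖h⁻¹ • (ThE (y + (0 + h) • v) - ThE (y + (0 : ℝ) • v))‖ ^ 2)
      (𝓝[≠] 0) (𝓝 (‖fderiv ℝ ThE y v‖ ^ 2)) := (hd.norm).pow 2
  have h4 : Tendsto (fun h : ℝ => lam (y + h • v) * lam y * ‖v‖ ^ 2) (𝓝[≠] 0)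
      (𝓝 (lam y ^ 2 * ‖v‖ ^ 2)) := by
    have hc : Continuous fun h : ℝ => lam (y + h • v) * lam y * ‖v‖ ^ 2 :=
      ((continuous_lam.comp (by fun_prop)).mul continuous_const).mul continuous_const
    have := (hc.tendsto 0).mono_left (nhdsWithin_le_nhds (s := {0}ᶜ))
    simpa [pow_two] using this
  refine tendsto_nhds_unique (h3.congr' ?_) h4
  filter_upwards [self_mem_nhdsWithin] with h hh
  have hh' : h ≠ 0 := hh
  rw [norm_smul, mul_pow, zero_add, zero_smul, add_zero, ThE_sub_norm_sq, add_sub_cancel_left,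
    norm_smul, mul_pow, norm_inv, Real.norm_eq_abs, inv_pow, sq_abs]
  field_simp

theorem inner_ThE_fderiv {d : ℕ} (y v : R d) : ⟪ThE y, fderiv ℝ ThE y v⟫ = 0 := by
  have h1 : HasFDerivAt ThE (fderiv ℝ ThE y) y := (differentiable_ThE y).hasFDerivAt
  have h2 := h1.norm_sq
  have h3 : (fun y : R d => ‖ThE y‖ ^ 2) = fun _ => (1 : ℝ) := by
    funext y; exact ThE_norm_sq y
  have h4 : HasFDerivAt (fun y : R d => ‖ThE y‖ ^ 2) (0 : R d →L[ℝ] ℝ) y := by
    rw [h3]; exact hasFDerivAt_const _ _
  have h5 := h2.unique h4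
  have h6 := congrArg (fun l : R d →L[ℝ] ℝ => l v) h5
  simp at h6
  exact h6

/-- the first `d` coordinates -/
noncomputable def ini {d : ℕ} : E d →L[ℝ] R d :=
  LinearMap.toContinuousLinearMap
    { toFun := fun p => WithLp.toLp 2 fun k => p k.castSucc
      map_add' := fun p q => by ext k; simp
      map_smul' := fun c p => by ext k; simp }

/-- the last coordinate -/
noncomputable def las {d : ℕ} : E d →L[ℝ] ℝ :=
  LinearMap.toContinuousLinearMap
    { toFun := fun p => p (Fin.last d)
      map_add' := fun p q => by simp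
      map_smul' := fun c p => by simp }

theorem ini_apply {d : ℕ} (p : E d) (k : Fin d) : ini p k = p k.castSucc := rfl

theorem las_apply {d : ℕ} (p : E d) : las p = p (Fin.last d) := rfl

/-- polar map `(y, t) ↦ t Θ(y)` -/
noncomputable def pol {d : ℕ} (p : E d) : E d := las p • ThE (ini p)

noncomputable def pol' {d : ℕ} (p : E d) : E d →L[ℝ] E d :=
  las p • (fderiv ℝ ThE (ini p)).comp ini + las.smulRight (ThE (ini p))

theorem pol'_apply {d : ℕ} (p q : E d) :
    pol' p q = las p • fderiv ℝ ThE (ini p) (ini q) + las q • ThE (ini p) := by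
  simp [pol']

theorem hasFDerivAt_pol {d : ℕ} (p : E d) : HasFDerivAt pol (pol' p) p := by
  have h1 : HasFDerivAt (fun p : E d => ThE (ini p)) ((fderiv ℝ ThE (ini p)).comp ini) p :=
    (differentiable_ThE (ini p)).hasFDerivAt.comp p ini.hasFDerivAt
  exact (las.hasFDerivAt (x := p)).smul h1

theorem norm_sq_split {d : ℕ} (q : E d) : ‖q‖ ^ 2 = ‖ini q‖ ^ 2 + las q ^ 2 := by
  rw [norm_sq_E, norm_sq_R]
  rfl

theorem pol'_norm_sq {d : ℕ} (p q : E d) :
    ‖pol' p q‖ ^ 2 = (las p * lam (ini p)) ^ 2 * ‖ini q‖ ^ 2 + las q ^ 2 := by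
  rw [pol'_apply, norm_add_sq_real, norm_smul, norm_smul, mul_pow, mul_pow, ThE_norm,
    fderiv_ThE_norm_sq, inner_smul_left, inner_smul_right, real_inner_comm, inner_ThE_fderiv]
  simp only [Real.norm_eq_abs, sq_abs]
  ring

theorem inner_pol' {d : ℕ} (p x y : E d) : ⟪pol' p x, pol' p y⟫ =
    (las p * lam (ini p)) ^ 2 * ⟪ini x, ini y⟫ + las x * las y := by
  have h1 := norm_add_sq_real (pol' p x) (pol' p y)
  rw [← map_add, pol'_norm_sq, pol'_norm_sq, pol'_norm_sq, map_add, map_add,
    norm_add_sq_real] at h1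
  linarith

theorem abs_det_pol' {d : ℕ} (p : E d) :
    |(pol' p).det| = |las p * lam (ini p)| ^ d := by
  have h1 := LinearMap.normDet_sq_eq_det_gram (pol' p).toLinearMap
    (EuclideanSpace.basisFun (Fin (d + 1)) ℝ)
  rw [LinearMap.normDet_eq_abs_det] at h1
  have h2 : (Matrix.gram ℝ fun i => (pol' p).toLinearMap (EuclideanSpace.basisFun (Fin (d + 1)) ℝ i))
      = Matrix.diagonal (Fin.snoc (α := fun _ => ℝ) (fun _ => (las p * lam (ini p)) ^ 2) 1) := by
    ext i j
    rw [Matrix.gram_apply, Matrix.diagonal_apply]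
    have h3 : ⟪(pol' p).toLinearMap (EuclideanSpace.basisFun (Fin (d + 1)) ℝ i),
        (pol' p).toLinearMap (EuclideanSpace.basisFun (Fin (d + 1)) ℝ j)⟫ =
        (las p * lam (ini p)) ^ 2 * ⟪ini (EuclideanSpace.basisFun (Fin (d + 1)) ℝ i),
          ini (EuclideanSpace.basisFun (Fin (d + 1)) ℝ j)⟫ +
        las (EuclideanSpace.basisFun (Fin (d + 1)) ℝ i) *
          las (EuclideanSpace.basisFun (Fin (d + 1)) ℝ j) := inner_pol' p _ _
    rw [h3]
    have h4 : ⟪ini (EuclideanSpace.basisFun (Fin (d + 1)) ℝ i),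
          ini (EuclideanSpace.basisFun (Fin (d + 1)) ℝ j)⟫ =
        ∑ k : Fin d, (if k.castSucc = i then (1 : ℝ) else 0) *
          (if k.castSucc = j then (1 : ℝ) else 0) := by
      rw [PiLp.inner_apply]
      refine Finset.sum_congr rfl fun k _ => ?_
      simp [ini_apply, PiLp.single_apply, mul_comm]
    have h5 : ∀ i : Fin (d + 1), las (EuclideanSpace.basisFun (Fin (d + 1)) ℝ i) =
        if Fin.last d = i then (1 : ℝ) else 0 := by
      intro i
      simp [las_apply, PiLp.single_apply]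
    rw [h4, h5, h5]
    refine Fin.lastCases ?_ (fun i => ?_) i <;> refine Fin.lastCases ?_ (fun j => ?_) j
    · simp
    · simp [Fin.castSucc_ne_last, (Fin.castSucc_ne_last _).symm]
    · simp [Fin.castSucc_ne_last, (Fin.castSucc_ne_last _).symm]
    · simp only [Fin.castSucc_inj, (Fin.castSucc_ne_last _).symm, if_false, mul_zero, add_zero,
        Fin.snoc_castSucc]
      rw [Finset.sum_eq_single i]
      · by_cases hij : i = j
        · simp [hij]
        · simp [hij]
      · intro b _ hb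
        simp [hb]
      · intro h; exact absurd (Finset.mem_univ i) h
  rw [h2, Matrix.det_diagonal, Fin.prod_univ_castSucc] at h1
  simp only [Fin.snoc_castSucc, Fin.snoc_last, Finset.prod_const, Finset.card_univ,
    Fintype.card_fin, mul_one] at h1
  have h6 : (pol' p).det = LinearMap.det (pol' p).toLinearMap := rfl
  rw [h6]
  have h7 : |LinearMap.det (pol' p).toLinearMap| ^ 2 = (|las p * lam (ini p)| ^ d) ^ 2 := by
    rw [← pow_mul, mul_comm d 2, pow_mul, sq_abs (las p * lam (ini p))]
    exact h1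
  exact (sq_eq_sq₀ (abs_nonneg _) (by positivity)).1 h7

/-- the splitting `E d ≃ ℝ × R d` -/
noncomputable def spl {d : ℕ} (p : E d) : ℝ × R d := (las p, ini p)

theorem spl_mp {d : ℕ} : MeasurePreserving (spl : E d → ℝ × R d) volume volume := by
  have h1 : MeasurePreserving (WithLp.ofLp : E d → (Fin (d + 1) → ℝ)) :=
    PiLp.volume_preserving_ofLp _
  have h2 := volume_preserving_piFinSuccAbove (fun _ : Fin (d + 1) => ℝ) (Fin.last d)
  have h3 : MeasurePreserving (Prod.map (id : ℝ → ℝ) (WithLp.toLp 2 : (Fin d → ℝ) → R d)) :=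
    (MeasurePreserving.id volume).prod (PiLp.volume_preserving_toLp _)
  have h4 := h3.comp (h2.comp h1)
  have h5 : (spl : E d → ℝ × R d) = Prod.map (id : ℝ → ℝ) (WithLp.toLp 2 : (Fin d → ℝ) → R d) ∘
      (MeasurableEquiv.piFinSuccAbove (fun _ : Fin (d + 1) => ℝ) (Fin.last d)) ∘
        (WithLp.ofLp : E d → (Fin (d + 1) → ℝ)) := by
    funext p
    simp only [spl, Function.comp_apply]
    refine Prod.ext ?_ ?_
    · simp [las_apply, Fin.insertNthEquiv]
    · ext k
      simp only [ini_apply]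
      simp [Fin.insertNthEquiv, Fin.init]
  rw [h5]
  exact h4

theorem pol_injOn {d : ℕ} (A : Set (R d)) : InjOn (pol : E d → E d) (spl ⁻¹' (Ioo 0 1 ×ˢ A)) := by
  intro p hp q hq h
  have hp1 : 0 < las p := hp.1.1
  have hq1 : 0 < las q := hq.1.1
  have h1 : las p = las q := by
    have := congrArg norm h
    rw [pol, pol, norm_smul, norm_smul, ThE_norm, ThE_norm, mul_one, mul_one, Real.norm_eq_abs,
      Real.norm_eq_abs, abs_of_pos hp1, abs_of_pos hq1] at this
    exact this
  have h2 : ThE (ini p) = ThE (ini q) := by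
    have h3 : las p • ThE (ini p) = las p • ThE (ini q) := by
      have : pol p = pol q := h
      rw [pol, pol, ← h1] at this
      exact this
    exact (smul_right_injective (E d) hp1.ne') h3
  have h3 : ini p = ini q := by
    apply injective_Th
    exact Subtype.ext h2
  ext k
  refine Fin.lastCases ?_ (fun k => ?_) k
  · exact h1
  · have := congrArg (fun v : R d => v k) h3
    exact this

theorem pol_image {d : ℕ} (A : Set (R d)) :
    (pol : E d → E d) '' (spl ⁻¹' (Ioo 0 1 ×ˢ A)) = Ioo (0 : ℝ) 1 • (Subtype.val '' (Th '' A)) := by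
  ext x
  constructor
  · rintro ⟨p, hp, rfl⟩
    exact ⟨las p, hp.1, ThE (ini p), ⟨Th (ini p), ⟨ini p, hp.2, rfl⟩, rfl⟩, rfl⟩
  · rintro ⟨t, ht, _, ⟨_, ⟨y, hy, rfl⟩, rfl⟩, rfl⟩
    have h1 : las (WithLp.toLp 2 (Fin.snoc (α := fun _ => ℝ) (fun k => y k) t) : E d) = t := by
      simp [las_apply]
    have h2 : ini (WithLp.toLp 2 (Fin.snoc (α := fun _ => ℝ) (fun k => y k) t) : E d) = y := by
      ext k; simp [ini_apply]
    refine ⟨(WithLp.toLp 2 (Fin.snoc (α := fun _ => ℝ) (fun k => y k) t) : E d), ?_, ?_⟩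
    · show (las _, ini _) ∈ Ioo (0 : ℝ) 1 ×ˢ A
      rw [h1, h2]
      exact ⟨ht, hy⟩
    · rw [pol, h1, h2]
      rfl

theorem lintegral_pow_Ioo (d : ℕ) :
    ∫⁻ t in Ioo (0 : ℝ) 1, ENNReal.ofReal (t ^ d) = ENNReal.ofReal (1 / ((d : ℝ) + 1)) := by
  rw [restrict_Ioo_eq_restrict_Ioc, ← ofReal_integral_eq_lintegral_ofReal]
  · rw [← intervalIntegral.integral_of_le zero_le_one, integral_pow]
    simp
  · have : IntervalIntegrable (fun t : ℝ => t ^ d) volume 0 1 :=
      (continuous_pow d).intervalIntegrable _ _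
    exact (intervalIntegrable_iff_integrableOn_Ioc_of_le zero_le_one).1 this
  · filter_upwards [ae_restrict_mem measurableSet_Ioc] with t ht
    have := ht.1
    positivity

theorem toSphere_Th {d : ℕ} (A : Set (R d)) (hA : MeasurableSet A) :
    (volume : Measure (E d)).toSphere (Th '' A) = ∫⁻ y in A, ENNReal.ofReal (lam y ^ d) := by
  have hs : MeasurableSet ((spl : E d → ℝ × R d) ⁻¹' (Ioo 0 1 ×ˢ A)) :=
    spl_mp.measurable (measurableSet_Ioo.prod hA)
  rw [Measure.toSphere_apply' _ (measurableEmbedding_Th.measurableSet_image.2 hA), ← pol_image,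
    ← lintegral_abs_det_fderiv_eq_addHaar_image volume hs
      (fun p _ => (hasFDerivAt_pol p).hasFDerivWithinAt) (pol_injOn A)]
  have h1 : ∫⁻ p in (spl : E d → ℝ × R d) ⁻¹' (Ioo 0 1 ×ˢ A), ENNReal.ofReal |(pol' p).det| =
      ∫⁻ p in (spl : E d → ℝ × R d) ⁻¹' (Ioo 0 1 ×ˢ A),
        (fun q : ℝ × R d => ENNReal.ofReal (q.1 ^ d) * ENNReal.ofReal (lam q.2 ^ d)) (spl p) := by
    refine setLIntegral_congr_fun hs fun p hp => ?_
    have hp1 : 0 < las p := hp.1.1
    have hl := lam_pos (ini p)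
    show ENNReal.ofReal |(pol' p).det| = ENNReal.ofReal (las p ^ d) * ENNReal.ofReal (lam (ini p) ^ d)
    rw [abs_det_pol', abs_of_pos (mul_pos hp1 hl), mul_pow, ENNReal.ofReal_mul (by positivity)]
  have hm : Measurable fun q : ℝ × R d => ENNReal.ofReal (q.1 ^ d) * ENNReal.ofReal (lam q.2 ^ d) := by
    have := (continuous_lam (d := d)).measurable
    fun_prop
  rw [h1, spl_mp.setLIntegral_comp_preimage (measurableSet_Ioo.prod hA) hm]
  have h2 : (volume : Measure (ℝ × R d)).restrict (Ioo 0 1 ×ˢ A) =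
      ((volume : Measure ℝ).restrict (Ioo 0 1)).prod ((volume : Measure (R d)).restrict A) := by
    rw [Measure.prod_restrict]; rfl
  have hm1 : Measurable fun t : ℝ => ENNReal.ofReal (t ^ d) := by fun_prop
  have hm2 : Measurable fun y : R d => ENNReal.ofReal (lam y ^ d) := by
    have := (continuous_lam (d := d)).measurable
    fun_prop
  rw [h2, lintegral_prod_mul hm1.aemeasurable hm2.aemeasurable, lintegral_pow_Ioo, ← mul_assoc]
  have h3 : (Module.finrank ℝ (E d) : ℝ≥0∞) * ENNReal.ofReal (1 / ((d : ℝ) + 1)) = 1 := by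
    rw [finrank_euclideanSpace_fin, ← ENNReal.ofReal_natCast, ← ENNReal.ofReal_mul (by positivity)]
    rw [show ((d + 1 : ℕ) : ℝ) * (1 / ((d : ℝ) + 1)) = 1 by push_cast; field_simp]
    simp
  rw [h3, one_mul]

theorem toSphere_singleton {d : ℕ} (hd : 1 ≤ d) (x : S d) :
    (volume : Measure (E d)).toSphere {x} = 0 := by
  rw [Measure.toSphere_apply' _ (measurableSet_singleton x)]
  have h1 : volume (Ioo (0 : ℝ) 1 • (Subtype.val '' ({x} : Set (S d)))) = 0 := by
    refine measure_mono_null (t := ((Submodule.span ℝ {(x : E d)} : Submodule ℝ (E d)) : Set (E d)))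
      ?_ ?_
    · rintro _ ⟨t, ht, _, ⟨y, hy, rfl⟩, rfl⟩
      rw [mem_singleton_iff] at hy
      rw [hy]
      exact Submodule.smul_mem _ _ (Submodule.subset_span rfl)
    · refine Measure.addHaar_submodule _ _ ?_
      intro htop
      have h2 : Module.finrank ℝ (Submodule.span ℝ {(x : E d)}) ≤ 1 := by
        have := finrank_span_le_card (R := ℝ) ({(x : E d)} : Set (E d))
        simpa using this
      rw [htop, finrank_top, finrank_euclideanSpace_fin] at h2
      omega
  rw [h1, mul_zero]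

theorem toSphere_univ {d : ℕ} (hd : 1 ≤ d) :
    (volume : Measure (E d)).toSphere univ = ∫⁻ y : R d, ENNReal.ofReal (lam y ^ d) := by
  have h1 := toSphere_Th (d := d) univ MeasurableSet.univ
  rw [image_univ, range_Th, Measure.restrict_univ] at h1
  rw [← h1, ← measure_add_measure_compl (measurableSet_singleton (north d)),
    toSphere_singleton hd, zero_add]

theorem nontrivial_E (d : ℕ) : Nontrivial (E d) := by
  refine ⟨⟨(north d : E d), 0, ?_⟩⟩
  intro h
  have : ‖(north d : E d)‖ = 1 := by simp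
  rw [h, norm_zero] at this
  norm_num at this

theorem integrable_lam_pow {d : ℕ} (hd : 1 ≤ d) : Integrable (fun y : R d => lam y ^ d) := by
  refine ⟨((continuous_lam).pow d).aestronglyMeasurable, ?_⟩
  rw [hasFiniteIntegral_iff_ofReal (Eventually.of_forall fun y => by
    have := lam_pos y; positivity)]
  rw [← toSphere_univ hd]
  exact measure_lt_top _ _

theorem toSphere_univ_eq_ofReal {d : ℕ} (hd : 1 ≤ d) :
    (volume : Measure (E d)).toSphere univ = ENNReal.ofReal (∫ y : R d, lam y ^ d) := by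
  rw [toSphere_univ hd, ofReal_integral_eq_lintegral_ofReal (integrable_lam_pow hd)]
  exact Eventually.of_forall fun y => by
    have := lam_pos y; positivity

/-- `ω_d` as an integral (it equals the surface area of `S^d`) -/
noncomputable def omega (d : ℕ) : ℝ := ∫ y : R d, lam y ^ d

theorem omega_pos {d : ℕ} (hd : 1 ≤ d) : 0 < omega d := by
  have h1 := toSphere_univ_eq_ofReal hd
  have := nontrivial_E d
  by_contra hcon
  have h2 : ENNReal.ofReal (∫ y : R d, lam y ^ d) = 0 := ENNReal.ofReal_eq_zero.2 (not_lt.1 hcon)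
  rw [h2, Measure.measure_univ_eq_zero] at h1
  exact Measure.toSphere_ne_zero (μ := (volume : Measure (E d))) h1

/-- the surface measure in stereographic coordinates -/
theorem sig_Th {d : ℕ} (hd : 1 ≤ d) (A : Set (R d)) (hA : MeasurableSet A) :
    sig d (Th '' A) = ENNReal.ofReal (1 / omega d) * ∫⁻ y in A, ENNReal.ofReal (lam y ^ d) := by
  rw [sig, Measure.smul_apply, smul_eq_mul, toSphere_Th A hA, toSphere_univ_eq_ofReal hd]
  congr 1
  rw [one_div, ENNReal.ofReal_inv_of_pos (omega_pos hd)]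
  rfl

theorem sig_singleton {d : ℕ} (hd : 1 ≤ d) (x : S d) : sig d {x} = 0 := by
  rw [sig, Measure.smul_apply, toSphere_singleton hd, smul_zero]

end Helper23.Riesz
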